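import Pool.Agent.Lib.MP_5dd24d_lc.Main

/-!
# Single-machine makespan with forbidden start and completion times is FPT

The parameter is the number of forbidden instants.
-/

namespace Pool.Agent.Results.MP_5dd24d_lc.FPT

open Pool.Agent.Lib.MP_5dd24d_lc

/-- Makespan minimization on a single machine with `τ` forbidden start and completion times is
fixed-parameter tractable with respect to `τ`. -/
theorem result : FixedParameterTractable Instance.encode Instance.tau Instance.Sol := fpt

end Pool.Agent.Results.MP_5dd24d_lc.FPT
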